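import Pool.Agent.Helper234.ZeroS

/-!
# Maximum `[0,s]`-sum-free sets in finite abelian groups

Let `G` be a finite abelian group of order `n` and exponent `κ`, and let `d` be the least divisor
of `κ` with `d ≥ s+1`. If `4d ≤ (s+1)(s+2)`, then `μ(G,[0,s]) = n/d`. In particular this determines
`μ(G,[0,s])` for all `s < κ` with `(s+1)(s+2) ≥ 4κ`.

Upper bound: if `A` is a maximum set and `H` is the stabiliser of `sA`, then the sets `jA + H`,
`0 ≤ j ≤ s`, are pairwise disjoint, and their sizes are bounded below by Kneser's theorem. Lower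
bound: a fibre of a character of order `d`.
-/

set_option autoImplicit false

namespace Pool.Agent.Results.MP_cb0067_co.SmallDivisor

open Pool.Agent.Helper234.NonSpanning Pool.Agent.Helper234.ZeroS

theorem result {G : Type} [AddCommGroup G] [Fintype G] (s d : ℕ)
    (hd : IsLeast {e : ℕ | e ∣ AddMonoid.exponent G ∧ s + 1 ≤ e} d)
    (hle : 4 * d ≤ (s + 1) * (s + 2)) :
    d ∣ Fintype.card G ∧
    IsGreatest {m : ℕ | ∃ A : Finset G, A.card = m ∧
      ∀ i j : ℕ, i ≤ s → j ≤ s → i ≠ j → Disjoint (hfold i A) (hfold j A)}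
      (Fintype.card G / d) := by
  classical
  obtain ⟨⟨hdvd, hs⟩, hmin⟩ := hd
  have hdn : d ∣ Fintype.card G := by
    have h1 : AddMonoid.exponent G ∣ Nat.card G := AddGroup.exponent_dvd_nat_card
    rw [Nat.card_eq_fintype_card] at h1
    exact hdvd.trans h1
  have hd0 : 0 < d := by omega
  have hup : ∀ A : Finset G, SumFreeUpTo s A → A.card ≤ Fintype.card G / d := by
    intro A hA
    rw [Nat.le_div_iff_mul_le hd0, mul_comm]
    exact upper s d hs hle (fun e he1 he2 => hmin ⟨he1, he2⟩) A hA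
  refine ⟨hdn, ?_, ?_⟩
  · obtain ⟨A, hA1, hA2⟩ := lower (G := G) s d hdvd hs
    refine ⟨A, le_antisymm (hup A hA2) ?_, hA2⟩
    exact Nat.div_le_of_le_mul hA1
  · rintro m ⟨A, rfl, hA⟩
    exact hup A hA

end Pool.Agent.Results.MP_cb0067_co.SmallDivisor
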